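import Mathlib

/-!
The five element morphism of matroids: the free matroid on `Fin 5`, the uniform matroid of rank
two on `Fin 3`, and the map with fibres `{0, 1}`, `{2, 3}`, `{4}`.
-/

namespace EurHuhHR

open Finset

/-- The uniform matroid of rank two on three elements. -/
def U23 : Matroid (Fin 3) :=
  (IndepMatroid.ofFinite (E := Set.univ) Set.finite_univ (fun I => I.ncard ≤ 2) (by simp)
    (fun I J hJ hIJ => (Set.ncard_le_ncard hIJ (Set.toFinite J)).trans hJ)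
    (fun I J _ hJ hlt => by
      obtain ⟨e, heJ, heI⟩ := Set.exists_mem_notMem_of_ncard_lt_ncard hlt
      refine ⟨e, heJ, heI, ?_⟩
      rw [Set.ncard_insert_of_notMem heI (Set.toFinite I)]
      omega)
    (fun I _ => Set.subset_univ I)).matroid

/-- The free matroid on five elements. -/
def F5 : Matroid (Fin 5) := Matroid.freeOn Set.univ

/-- The map with fibres `{0, 1}`, `{2, 3}`, `{4}`. -/
def phi : Fin 5 → Fin 3 := ![0, 0, 1, 1, 2]

lemma U23_indep (I : Set (Fin 3)) : U23.Indep I ↔ I.ncard ≤ 2 := Iff.rfl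

lemma U23_isBase (B : Set (Fin 3)) : U23.IsBase B ↔ B.ncard = 2 := by
  rw [Matroid.isBase_iff_maximal_indep]
  constructor
  · intro h
    have h1 : B.ncard ≤ 2 := h.prop
    by_contra hne
    have hlt : B.ncard < 2 := lt_of_le_of_ne h1 hne
    have huniv : (Set.univ : Set (Fin 3)).ncard = 3 := by simp [Set.ncard_univ]
    obtain ⟨e, -, heB⟩ := Set.exists_mem_notMem_of_ncard_lt_ncard
      (s := B) (t := Set.univ) (by rw [huniv]; omega)
    have h2 : U23.Indep (insert e B) := by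
      rw [U23_indep, Set.ncard_insert_of_notMem heB (Set.toFinite B)]
      omega
    have h3 := h.le_of_ge h2 (Set.subset_insert e B)
    exact heB (h3 (Set.mem_insert e B))
  · intro h
    refine ⟨by rw [U23_indep]; omega, fun J hJ hBJ => ?_⟩
    have hJ' : J.ncard ≤ 2 := hJ
    have : B = J := Set.eq_of_subset_of_ncard_le hBJ (by omega) (Set.toFinite J)
    exact this.ge

lemma F5_isBase (B : Set (Fin 5)) : F5.IsBase B ↔ B = Set.univ := by
  rw [F5, Matroid.freeOn_isBase_iff]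

lemma U23_base_in (S : Finset (Fin 3)) :
    (∃ B', U23.IsBase B' ∧ B' ⊆ (S : Set (Fin 3))) ↔ 2 ≤ S.card := by
  constructor
  · rintro ⟨B', hB, hsub⟩
    rw [U23_isBase] at hB
    have := Set.ncard_le_ncard hsub (Set.toFinite _)
    rw [hB, Set.ncard_coe_finset] at this
    exact this
  · intro h
    obtain ⟨T, hTS, hT⟩ := Finset.exists_subset_card_eq h
    refine ⟨T, ?_, by exact_mod_cast hTS⟩
    rw [U23_isBase, Set.ncard_coe_finset, hT]

/-- the sum over subsets, in explicit form -/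
lemma sum_explicit (w0 : ℝ) (w : Fin 5 → ℝ) :
    (∑ T ∈ (Finset.univ : Finset (Finset (Fin 5))).filter (fun T => 2 ≤ (T.image phi).card),
      w0 ^ (5 - T.card) * ∏ f ∈ T, w f) =
    w 0 * w 1 * w 2 * w 3 * w 4 +
    w0 * (w 0 * w 1 * w 2 * w 3 + w 0 * w 1 * w 2 * w 4 + w 0 * w 1 * w 3 * w 4 +
      w 0 * w 2 * w 3 * w 4 + w 1 * w 2 * w 3 * w 4) +
    w0 ^ 2 * (w 0 * w 1 * w 2 + w 0 * w 1 * w 3 + w 0 * w 1 * w 4 + w 0 * w 2 * w 3 +
      w 0 * w 2 * w 4 + w 0 * w 3 * w 4 + w 1 * w 2 * w 3 + w 1 * w 2 * w 4 + w 1 * w 3 * w 4 +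
      w 2 * w 3 * w 4) +
    w0 ^ 3 * (w 0 * w 2 + w 0 * w 3 + w 0 * w 4 + w 1 * w 2 + w 1 * w 3 + w 1 * w 4 +
      w 2 * w 4 + w 3 * w 4) := by
  have hfil : (Finset.univ : Finset (Finset (Fin 5))).filter
      (fun T => 2 ≤ (T.image phi).card) =
      {{0, 1, 2, 3, 4}, {0, 1, 2, 3}, {0, 1, 2, 4}, {0, 1, 3, 4}, {0, 2, 3, 4}, {1, 2, 3, 4},
        {0, 1, 2}, {0, 1, 3}, {0, 1, 4}, {0, 2, 3}, {0, 2, 4}, {0, 3, 4}, {1, 2, 3}, {1, 2, 4},
        {1, 3, 4}, {2, 3, 4}, {0, 2}, {0, 3}, {0, 4}, {1, 2}, {1, 3}, {1, 4}, {2, 4},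
        {3, 4}} := by
    decide +kernel
  rw [hfil]
  repeat rw [Finset.sum_insert (by decide +kernel)]
  rw [Finset.sum_singleton]
  have c5 : (({0, 1, 2, 3, 4} : Finset (Fin 5))).card = 5 := by decide
  simp [Finset.prod_insert, Finset.card_insert_of_notMem]
  ring

end EurHuhHR
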