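import Pool.Agent.Work.MP_9eee85_co_hr.Numbers

/-!
The contradiction with the Hodge-Riemann relation.
-/

namespace EurHuhHR

variable {A : Type*} [CommRing A] [Algebra ℝ A] {P : KahlerPackage 5 A} {g : Fin 6 → A}

/-- the vector of `L` -/
def lv : Fin 6 → ℤ := fun i => if i = 0 then 20 else 1

/-- the vector of `u` -/
def uv : Fin 6 → ℤ := fun i => if i = 0 then -735 else if i = 5 then -352 else 0

/-- the vector of `δ` -/
def dv : Fin 6 → ℤ := E 1 + E 2 - E 3 - E 4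

lemma X_lv : X g lv = Lc g := by
  simp [X, lv, Lc, Fin.sum_univ_succ]
  abel

lemma X_uv : X g uv = -((735 : ℤ) • g 0 + (352 : ℤ) • g 5) := by
  simp [X, uv, Fin.sum_univ_succ]
  abel

lemma X_dv : X g dv = g 1 + g 2 - g 3 - g 4 := by
  simp only [dv, X_add, X_sub, X_E]

lemma lv_checks : (∀ i, 0 ≤ lv i) ∧ ∀ j i, 0 ≤ (lv - E j) i := by decide +kernel

lemma final_check :
    (4557 ^ 2) * MZ lv (E 1) (E 2) (E 1) (E 2) - (2 * 4557 ^ 2) * MZ lv (E 1) (E 2) (E 3) (E 4) +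
    (4557 ^ 2) * MZ lv (E 3) (E 4) (E 3) (E 4) + (2 * 4557) * MZ lv (E 1) (E 2) uv dv -
    (2 * 4557) * MZ lv (E 3) (E 4) uv dv + MZ lv uv uv dv dv < 0 := by decide +kernel

lemma dom_gen (hg : ∀ i, P.Nef (g i)) (j : Fin 6) : Dom P (Lc g) (g j) := by
  refine ⟨hg j, 1, zero_le_one, ?_⟩
  have h := X_nef (P := P) hg (w := lv - E j) (fun i => lv_checks.2 j i)
  rw [X_sub, X_lv, X_E] at h
  rwa [one_smul]

lemma phi_mem (hg : ∀ i, P.Nef (g i)) : Phi g ∈ DomSpan P (Lc g) := by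
  have h : ∀ i j, g i * g j ∈ DomSpan P (Lc g) := fun i j =>
    Submodule.subset_span ⟨g i, g j, dom_gen hg i, dom_gen hg j, rfl⟩
  have key : Phi g = (4557 : ℤ) • (g 1 * g 2) - (4557 : ℤ) • (g 3 * g 4) -
      (735 : ℤ) • (g 0 * g 1) - (735 : ℤ) • (g 0 * g 2) + (735 : ℤ) • (g 0 * g 3) +
      (735 : ℤ) • (g 0 * g 4) - (352 : ℤ) • (g 5 * g 1) - (352 : ℤ) • (g 5 * g 2) +
      (352 : ℤ) • (g 5 * g 3) + (352 : ℤ) • (g 5 * g 4) := by
    simp only [Phi, zsmul_eq_mul]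
    push_cast
    ring
  rw [key]
  exact add_mem (add_mem (sub_mem (sub_mem (add_mem (add_mem (sub_mem (sub_mem (sub_mem
    (zsmul_mem (h 1 2) _) (zsmul_mem (h 3 4) _)) (zsmul_mem (h 0 1) _)) (zsmul_mem (h 0 2) _))
    (zsmul_mem (h 0 3) _)) (zsmul_mem (h 0 4) _)) (zsmul_mem (h 5 1) _))
    (zsmul_mem (h 5 2) _)) (zsmul_mem (h 5 3) _)) (zsmul_mem (h 5 4) _)

/-- No six nef classes have the volume polynomial `pZ`. -/
theorem no_volume (hg : ∀ i, P.Nef (g i)) (hp : HasVol P g) : False := by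
  have hL : P.Nef (Lc g) := by
    rw [← X_lv]; exact X_nef hg lv_checks.1
  have h := limit_hr P hL (phi_mem hg) (LLPhi hg hp)
  have e1 : Lc g * Phi g * Phi g =
      (4557 ^ 2 : ℝ) • (X g lv * X g (E 1) * X g (E 2) * X g (E 1) * X g (E 2)) -
      (2 * 4557 ^ 2 : ℝ) • (X g lv * X g (E 1) * X g (E 2) * X g (E 3) * X g (E 4)) +
      (4557 ^ 2 : ℝ) • (X g lv * X g (E 3) * X g (E 4) * X g (E 3) * X g (E 4)) +
      (2 * 4557 : ℝ) • (X g lv * X g (E 1) * X g (E 2) * X g uv * X g dv) -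
      (2 * 4557 : ℝ) • (X g lv * X g (E 3) * X g (E 4) * X g uv * X g dv) +
      X g lv * X g uv * X g uv * X g dv * X g dv := by
    simp only [X_lv, X_uv, X_dv, X_E, Phi, Algebra.smul_def, map_mul, map_pow, map_ofNat,
      zsmul_eq_mul]
    push_cast
    ring
  rw [e1] at h
  simp only [map_add, map_sub, map_smul, smul_eq_mul] at h
  have m1 := mixed hp lv (E 1) (E 2) (E 1) (E 2)
  have m2 := mixed hp lv (E 1) (E 2) (E 3) (E 4)
  have m3 := mixed hp lv (E 3) (E 4) (E 3) (E 4)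
  have m4 := mixed hp lv (E 1) (E 2) uv dv
  have m5 := mixed hp lv (E 3) (E 4) uv dv
  have m6 := mixed hp lv uv uv dv dv
  have hf : ((4557 ^ 2 : ℝ)) * (MZ lv (E 1) (E 2) (E 1) (E 2) : ℝ) -
      (2 * 4557 ^ 2) * (MZ lv (E 1) (E 2) (E 3) (E 4) : ℝ) +
      (4557 ^ 2) * (MZ lv (E 3) (E 4) (E 3) (E 4) : ℝ) +
      (2 * 4557) * (MZ lv (E 1) (E 2) uv dv : ℝ) -
      (2 * 4557) * (MZ lv (E 3) (E 4) uv dv : ℝ) + (MZ lv uv uv dv dv : ℝ) < 0 := by
    exact_mod_cast final_check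
  rw [← m1, ← m2, ← m3, ← m4, ← m5, ← m6] at hf
  linarith

end EurHuhHR
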