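import Pool.Agent.Work.MP_9eee85_co_hr.Package

/-!
The Hodge-Riemann relation in degree two for nef classes `L` dominating all classes involved.
-/

namespace EurHuhHR

variable {A : Type*} [CommRing A] [Algebra ℝ A] (P : KahlerPackage 5 A)

/-- the positive definite form attached to a Lorentzian form -/
noncomputable def nrm (T L D : A) : ℝ :=
  2 * P.deg (T * L * D) ^ 2 / P.deg (T * L * L) - P.deg (T * D * D)

lemma quad_real {R r R' : ℝ} (h : ∀ s : ℝ, 0 ≤ R + 2 * s * r + s ^ 2 * R') : r ^ 2 ≤ R * R' := by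
  have h1 : discrim R' (2 * r) R ≤ 0 := by
    refine discrim_le_zero fun x => ?_
    have := h x
    nlinarith [this]
  unfold discrim at h1
  nlinarith [h1]

lemma cs_real {α p q X Y z : ℝ} (hα : 0 < α)
    (h : ∀ s : ℝ, α * (X + 2 * s * z + s ^ 2 * Y) ≤ (p + s * q) ^ 2) :
    z ^ 2 ≤ (2 * p ^ 2 / α - X) * (2 * q ^ 2 / α - Y) := by
  have hr : (p * q - α * z) ^ 2 ≤ (p ^ 2 - α * X) * (q ^ 2 - α * Y) := by
    refine quad_real fun s => ?_
    have := h s
    nlinarith [this]
  have hR : 0 ≤ p ^ 2 - α * X := by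
    have := h 0
    nlinarith [this]
  have hR' : 0 ≤ q ^ 2 - α * Y := by
    have h1 : ∀ s : ℝ, 0 ≤ (p ^ 2 - α * X) + 2 * s * (p * q - α * z) +
        s ^ 2 * (q ^ 2 - α * Y) := by
      intro s
      have := h s
      nlinarith [this]
    by_contra hc
    push Not at hc
    have h2 := quad_real h1
    have h3 : (p ^ 2 - α * X) * (q ^ 2 - α * Y) ≤ 0 :=
      mul_nonpos_of_nonneg_of_nonpos hR hc.le
    have h4 : (p * q - α * z) = 0 := by
      have : (p * q - α * z) ^ 2 = 0 := le_antisymm (h2.trans h3) (sq_nonneg _)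
      exact pow_eq_zero_iff (two_ne_zero) |>.mp this
    rw [h4] at h1
    have h5 := h1 (((p ^ 2 - α * X) + 1) / (-(q ^ 2 - α * Y)) + 1)
    set R := p ^ 2 - α * X
    set Q := -(q ^ 2 - α * Y) with hQ
    have hQpos : 0 < Q := by linarith
    have h6 : q ^ 2 - α * Y = -Q := by linarith
    rw [h6] at h5
    have h7 : ((R + 1) / Q + 1) ^ 2 * Q ≥ R + 1 := by
      have : ((R + 1) / Q + 1) ^ 2 * Q = (R + 1) ^ 2 / Q + 2 * (R + 1) + Q := by
        field_simp
        ring
      rw [this]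
      have : 0 ≤ (R + 1) ^ 2 / Q := by positivity
      linarith
    nlinarith
  set R := p ^ 2 - α * X with hRdef
  set R' := q ^ 2 - α * Y with hR'def
  set r := p * q - α * z with hrdef
  have e1 : 2 * p ^ 2 / α - X = (p ^ 2 + R) / α := by
    rw [hRdef]; field_simp; ring
  have e2 : 2 * q ^ 2 / α - Y = (q ^ 2 + R') / α := by
    rw [hR'def]; field_simp; ring
  have e3 : z = (p * q - r) / α := by
    rw [hrdef]; field_simp; ring
  rw [e1, e2, e3, div_pow, div_mul_div_comm, ← pow_two]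
  refine div_le_div_of_nonneg_right ?_ (by positivity)
  have hX : 0 ≤ p ^ 2 * R' := by positivity
  have hY : 0 ≤ q ^ 2 * R := by positivity
  have hz : (2 * (p * q * r)) ^ 2 ≤ (p ^ 2 * R' + q ^ 2 * R) ^ 2 := by
    have : (p * q * r) ^ 2 ≤ (p ^ 2 * R') * (q ^ 2 * R) := by
      have := mul_le_mul_of_nonneg_left hr (by positivity : 0 ≤ p ^ 2 * q ^ 2)
      nlinarith [this]
    nlinarith [sq_nonneg (p ^ 2 * R' - q ^ 2 * R), this]
  have hz2 := sq_le_sq.mp hz
  rw [abs_of_nonneg (add_nonneg hX hY)] at hz2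
  have hz3 := (abs_le.mp hz2).1
  nlinarith [hz3, hr]

/-- expansions used below -/
lemma deg_expand (T x D : A) (s : ℝ) : P.deg (T * (x + s • D) * (x + s • D)) =
    P.deg (T * x * x) + 2 * s * P.deg (T * x * D) + s ^ 2 * P.deg (T * D * D) := by
  have e1 : T * (x + s • D) * (x + s • D) =
      T * x * x + (2 * s) • (T * x * D) + (s ^ 2) • (T * D * D) := by
    simp only [Algebra.smul_def, map_pow, map_mul, map_ofNat]
    ring
  rw [e1]
  simp only [map_add, map_smul, smul_eq_mul]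

lemma cs {x1 x2 x3 L x D : A} (h1 : x1 ∈ P.Ample) (h2 : x2 ∈ P.Ample) (h3 : x3 ∈ P.Ample)
    (hL : L ∈ P.Ample) (hx : x ∈ P.N) (hD : D ∈ P.N) :
    P.deg (x1 * x2 * x3 * x * D) ^ 2 ≤
      nrm P (x1 * x2 * x3) L x * nrm P (x1 * x2 * x3) L D := by
  refine cs_real (pos5 P h1 h2 h3 hL hL) fun s => ?_
  have h := af_ample P h1 h2 h3 hL (P.N.add_mem hx (P.N.smul_mem s hD))
  rw [deg_expand] at h
  have e : P.deg (x1 * x2 * x3 * L * (x + s • D)) =
      P.deg (x1 * x2 * x3 * L * x) + s * P.deg (x1 * x2 * x3 * L * D) := by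
    rw [mul_add, mul_smul_comm, map_add, map_smul, smul_eq_mul]
  rw [e] at h
  exact h

lemma nrm_nonneg {x1 x2 x3 L D : A} (h1 : x1 ∈ P.Ample) (h2 : x2 ∈ P.Ample) (h3 : x3 ∈ P.Ample)
    (hL : L ∈ P.Ample) (hD : D ∈ P.N) : 0 ≤ nrm P (x1 * x2 * x3) L D := by
  have hα := pos5 P h1 h2 h3 hL hL
  have h := af_ample P h1 h2 h3 hL hD
  unfold nrm
  have : P.deg (x1 * x2 * x3 * D * D) ≤
      P.deg (x1 * x2 * x3 * L * D) ^ 2 / P.deg (x1 * x2 * x3 * L * L) := by
    rw [le_div_iff₀ hα]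
    linarith
  have h0 : 0 ≤ P.deg (x1 * x2 * x3 * L * D) ^ 2 / P.deg (x1 * x2 * x3 * L * L) := by
    positivity
  have e : 2 * P.deg (x1 * x2 * x3 * L * D) ^ 2 / P.deg (x1 * x2 * x3 * L * L) =
      2 * (P.deg (x1 * x2 * x3 * L * D) ^ 2 / P.deg (x1 * x2 * x3 * L * L)) := by ring
  rw [e]
  linarith

/-- Replacing one factor `L` of a Lorentzian form by a smaller class `N`. -/
lemma nrm_mono {x1 x2 N L D : A} {C : ℝ} (h1 : x1 ∈ P.Ample) (h2 : x2 ∈ P.Ample)
    (hN : N ∈ P.Ample) (hL : L ∈ P.Ample) (hM : C • L - N ∈ P.Ample) (hD : D ∈ P.N) :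
    nrm P (x1 * x2 * N) L D ≤ 7 * C * nrm P (x1 * x2 * L) L D := by
  set M := C • L - N with hMdef
  set α := P.deg (x1 * x2 * L * L * L) with hα
  have hαpos : 0 < α := pos5 P h1 h2 hL hL hL
  set sN := P.deg (x1 * x2 * L * L * N) with hsN
  set sM := P.deg (x1 * x2 * L * L * M) with hsM
  have hsNpos : 0 < sN := pos5 P h1 h2 hL hL hN
  have hsMpos : 0 < sM := pos5 P h1 h2 hL hL hM
  have hsum : sN + sM = C * α := by
    rw [hsM, hMdef, mul_sub, map_sub, mul_smul_comm, map_smul, smul_eq_mul]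
    ring
  have hCpos : 0 < C := by
    by_contra hc
    push Not at hc
    nlinarith
  set n := nrm P (x1 * x2 * L) L D with hn
  have hn0 : 0 ≤ n := nrm_nonneg P h1 h2 hL hL hD
  have csM := cs P h1 h2 hL hL (P.ample_mem _ hM) hD
  have csN := cs P h1 h2 hL hL (P.ample_mem _ hN) hD
  have bnd : ∀ {y : A}, y ∈ P.Ample → P.deg (x1 * x2 * L * L * y) ≤ C * α →
      nrm P (x1 * x2 * L) L y ≤ 2 * C * P.deg (x1 * x2 * L * L * y) := by
    intro y hy hyC
    have hpos : 0 < P.deg (x1 * x2 * L * y * y) := pos5 P h1 h2 hL hy hy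
    have hpos2 : 0 < P.deg (x1 * x2 * L * L * y) := pos5 P h1 h2 hL hL hy
    unfold nrm
    have : 2 * P.deg (x1 * x2 * L * L * y) ^ 2 / P.deg (x1 * x2 * L * L * L) ≤
        2 * C * P.deg (x1 * x2 * L * L * y) := by
      rw [div_le_iff₀ hαpos]
      nlinarith
    linarith
  have hsMC : sM ≤ C * α := by linarith
  have hsNC : sN ≤ C * α := by linarith
  have bM := bnd hM hsMC
  have bN := bnd hN hsNC
  have cM : P.deg (x1 * x2 * L * M * D) ^ 2 ≤ 2 * C * sM * n :=
    csM.trans (mul_le_mul_of_nonneg_right bM hn0)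
  have cN : P.deg (x1 * x2 * L * N * D) ^ 2 ≤ 2 * C * sN * n :=
    csN.trans (mul_le_mul_of_nonneg_right bN hn0)
  -- the form with `M`
  have afM := af_ample P h1 h2 hM hL hD
  have eM1 : P.deg (x1 * x2 * M * L * L) = sM := by
    rw [hsM]; congr 1; ring
  have eM2 : P.deg (x1 * x2 * M * L * D) = P.deg (x1 * x2 * L * M * D) := by
    congr 1; ring
  rw [eM1, eM2] at afM
  have hMD : P.deg (x1 * x2 * M * D * D) ≤ 2 * C * n := by
    have h3 : sM * P.deg (x1 * x2 * M * D * D) ≤ sM * (2 * C * n) := by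
      calc sM * P.deg (x1 * x2 * M * D * D) ≤ P.deg (x1 * x2 * L * M * D) ^ 2 := afM
        _ ≤ 2 * C * sM * n := cM
        _ = sM * (2 * C * n) := by ring
    exact le_of_mul_le_mul_left h3 hsMpos
  have eND : P.deg (x1 * x2 * N * D * D) =
      C * P.deg (x1 * x2 * L * D * D) - P.deg (x1 * x2 * M * D * D) := by
    have : x1 * x2 * M * D * D = C • (x1 * x2 * L * D * D) - x1 * x2 * N * D * D := by
      rw [hMdef]
      simp only [Algebra.smul_def]
      ring
    rw [this, map_sub, map_smul, smul_eq_mul]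
    ring
  have hLD : -P.deg (x1 * x2 * L * D * D) ≤ n := by
    rw [hn]; unfold nrm
    have : 0 ≤ 2 * P.deg (x1 * x2 * L * L * D) ^ 2 / P.deg (x1 * x2 * L * L * L) := by
      have := hαpos.le
      positivity
    linarith
  have eN1 : P.deg (x1 * x2 * N * L * L) = sN := by
    rw [hsN]; congr 1; ring
  have eN2 : P.deg (x1 * x2 * N * L * D) = P.deg (x1 * x2 * L * N * D) := by
    congr 1; ring
  have first : 2 * P.deg (x1 * x2 * N * L * D) ^ 2 / P.deg (x1 * x2 * N * L * L) ≤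
      4 * C * n := by
    rw [eN1, eN2, div_le_iff₀ hsNpos]
    nlinarith
  have : nrm P (x1 * x2 * N) L D = 2 * P.deg (x1 * x2 * N * L * D) ^ 2 /
      P.deg (x1 * x2 * N * L * L) - P.deg (x1 * x2 * N * D * D) := rfl
  rw [this, eND]
  have h4 : C * -P.deg (x1 * x2 * L * D * D) ≤ C * n :=
    mul_le_mul_of_nonneg_left hLD hCpos.le
  nlinarith

/-- the perturbation estimate for one product of two nef classes -/
lemma bound_one {L B y z D : A} {C : ℝ} (hL : P.Nef L) (hB : B ∈ P.Ample) (hC : 0 ≤ C)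
    (hy : P.Nef y) (hyC : P.Nef (C • L - y)) (hz : P.Nef z) (hzC : P.Nef (C • L - z))
    (hD : D ∈ P.N)
    (hDL : P.deg ((L + B) * (L + B) * (L + B) * (L + B) * D) = 0) :
    P.deg (B * (L + (L + B)) * (y + (L + B)) * z * D) ^ 2 ≤
      (2 * C ^ 2 * P.deg (B * (L + (L + B)) * (y + (L + B)) * (L + B) * (L + B))) *
      (7 * (C + 2) * (7 * 3 * (7 * 2 *
        -P.deg ((L + B) * (L + B) * (L + B) * D * D)))) := by
  set R := L + B with hR
  have hRA : R ∈ P.Ample := nef_add_ample P hL hB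
  set M := L + R with hM
  have hMA : M ∈ P.Ample := nef_add_ample P hL hRA
  set Y := y + R with hY
  have hYA : Y ∈ P.Ample := nef_add_ample P hy hRA
  have hCB : P.Nef (C • B) := nef_smul P (nef_of_ample P hB) hC
  -- first step
  have s1 : nrm P (R * R * B) R D ≤ 7 * 2 * nrm P (R * R * R) R D := by
    refine nrm_mono P hRA hRA hB hRA ?_ hD
    have : (2 : ℝ) • R - B = L + R := by
      rw [two_smul, hR]; abel
    rw [this]; exact hMA
  have s2 : nrm P (R * B * M) R D ≤ 7 * 3 * nrm P (R * B * R) R D := by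
    refine nrm_mono P hRA hB hMA hRA ?_ hD
    have : (3 : ℝ) • R - M = B + R := by
      have : (3 : ℝ) • R = R + R + R := by
        rw [show (3 : ℝ) = 1 + 1 + 1 by norm_num, add_smul, add_smul, one_smul]
      rw [this, hM, hR]; abel
    rw [this]; exact P.ample_add _ hB _ hRA
  have s3 : nrm P (B * M * Y) R D ≤ 7 * (C + 2) * nrm P (B * M * R) R D := by
    refine nrm_mono P hB hMA hYA hRA ?_ hD
    have : (C + 2) • R - Y = ((C • L - y) + C • B) + R := by
      have : (C + 2) • R = C • L + C • B + R + R := by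
        rw [add_smul, two_smul, ← add_assoc, hR, smul_add]
      rw [this, hY]; abel
    rw [this]
    exact nef_add_ample P (nef_add P hyC hCB) hRA
  have e1 : R * B * R = R * R * B := by ring
  have e2 : B * M * R = R * B * M := by ring
  rw [e1] at s2
  rw [e2] at s3
  have e0 : nrm P (R * R * R) R D = -P.deg (R * R * R * D * D) := by
    unfold nrm
    rw [hDL]; simp
  rw [e0] at s1
  have chain : nrm P (B * M * Y) R D ≤
      7 * (C + 2) * (7 * 3 * (7 * 2 * -P.deg (R * R * R * D * D))) := by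
    refine s3.trans (mul_le_mul_of_nonneg_left ?_ (by positivity))
    refine s2.trans (mul_le_mul_of_nonneg_left ?_ (by positivity))
    exact s1
  have csz := cs P hB hMA hYA hRA hz.1 hD
  have hT : 0 < P.deg (B * M * Y * R * R) := pos5 P hB hMA hYA hRA hRA
  have hzR : 0 ≤ P.deg (B * M * Y * R * z) :=
    nonneg5 P (nef_of_ample P hB) (nef_of_ample P hMA) (nef_of_ample P hYA)
      (nef_of_ample P hRA) hz
  have hzz : 0 ≤ P.deg (B * M * Y * z * z) :=
    nonneg5 P (nef_of_ample P hB) (nef_of_ample P hMA) (nef_of_ample P hYA) hz hz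
  have hzC' : 0 ≤ P.deg (B * M * Y * R * (C • R - z)) := by
    refine nonneg5 P (nef_of_ample P hB) (nef_of_ample P hMA) (nef_of_ample P hYA)
      (nef_of_ample P hRA) ?_
    have : C • R - z = (C • L - z) + C • B := by
      rw [hR, smul_add]; abel
    rw [this]
    exact nef_add P hzC hCB
  rw [mul_sub, map_sub, mul_smul_comm, map_smul, smul_eq_mul] at hzC'
  have bz : nrm P (B * M * Y) R z ≤ 2 * C ^ 2 * P.deg (B * M * Y * R * R) := by
    unfold nrm
    have : 2 * P.deg (B * M * Y * R * z) ^ 2 / P.deg (B * M * Y * R * R) ≤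
        2 * C ^ 2 * P.deg (B * M * Y * R * R) := by
      rw [div_le_iff₀ hT]
      have h5 : P.deg (B * M * Y * R * z) ^ 2 ≤ (C * P.deg (B * M * Y * R * R)) ^ 2 :=
        pow_le_pow_left₀ hzR (by linarith) 2
      nlinarith
    linarith
  refine csz.trans ?_
  have hnD : 0 ≤ nrm P (B * M * Y) R D := nrm_nonneg P hB hMA hYA hRA hD
  exact mul_le_mul bz chain hnD (by positivity)

end EurHuhHR
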