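import Pool.Agent.Work.MP_9eee85_co_hr.Limit

/-!
The Hodge-Riemann relation in degree two for nef classes `L` dominating all classes involved.
-/

namespace EurHuhHR

variable {A : Type*} [CommRing A] [Algebra ℝ A] (P : KahlerPackage 5 A)

/-- nef classes bounded by a multiple of `L` -/
def Dom (L y : A) : Prop := P.Nef y ∧ ∃ C : ℝ, 0 ≤ C ∧ P.Nef (C • L - y)

/-- span of products of two dominated classes -/
def DomSpan (L : A) : Submodule ℝ A :=
  Submodule.span ℝ {w | ∃ y z, Dom P L y ∧ Dom P L z ∧ w = y * z}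

lemma nef_mono_C {L y : A} {C C' : ℝ} (hL : P.Nef L) (h : P.Nef (C • L - y)) (hC : C ≤ C') :
    P.Nef (C' • L - y) := by
  have : C' • L - y = (C • L - y) + (C' - C) • L := by
    rw [sub_smul]; abel
  rw [this]
  exact nef_add P h (nef_smul P hL (by linarith))

/-- the estimate satisfied by `Φ` -/
def Est (L A0 Φ : A) : Prop := ∃ K : ℝ, 0 ≤ K ∧ ∀ t : ℝ, 0 < t → t ≤ 1 → ∀ D ∈ P.N,
  P.deg ((L + t • A0) * (L + t • A0) * (L + t • A0) * (L + t • A0) * D) = 0 →
  P.deg ((t • A0) * (L + (L + t • A0)) * Φ * D) ^ 2 ≤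
    K * t * -P.deg ((L + t • A0) * (L + t • A0) * (L + t • A0) * D * D)

lemma X_nonneg {L A0 D : A} {t : ℝ} (hL : P.Nef L) (hA : A0 ∈ P.Ample) (ht : 0 < t)
    (hD : D ∈ P.N)
    (h : P.deg ((L + t • A0) * (L + t • A0) * (L + t • A0) * (L + t • A0) * D) = 0) :
    0 ≤ -P.deg ((L + t • A0) * (L + t • A0) * (L + t • A0) * D * D) := by
  have hR := hL.2 A0 hA t ht
  have := index5 P hR hR hR hR hD h
  linarith

lemma exists_bound {L A0 y : A} : ∃ c : ℝ, 0 ≤ c ∧ ∀ t : ℝ, 0 < t → t ≤ 1 →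
    P.deg ((t • A0) * (L + (L + t • A0)) * (y + (L + t • A0)) * (L + t • A0) * (L + t • A0)) ≤
      c * t := by
  have hc : Continuous fun t : ℝ => P.deg (A0 * ((L + L) + t • A0) * ((y + L) + t • A0) *
      (L + t • A0) * (L + t • A0)) :=
    (PC_mul_aff (PC_mul_aff (PC_mul_aff (PC_mul_aff (PC_const A0) (L + L) A0) (y + L) A0)
      L A0) L A0) P.deg
  obtain ⟨c, hcb⟩ := (isCompact_Icc (a := (0 : ℝ)) (b := 1)).exists_bound_of_continuousOn
    hc.continuousOn
  refine ⟨|c|, abs_nonneg c, fun t ht0 ht1 => ?_⟩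
  have h1 := hcb t ⟨ht0.le, ht1⟩
  rw [Real.norm_eq_abs] at h1
  have h2 := (le_abs_self _).trans (h1.trans (le_abs_self c))
  have e : (t • A0) * (L + (L + t • A0)) * (y + (L + t • A0)) * (L + t • A0) * (L + t • A0) =
      t • (A0 * ((L + L) + t • A0) * ((y + L) + t • A0) * (L + t • A0) * (L + t • A0)) := by
    simp only [Algebra.smul_def]
    ring
  rw [e, map_smul, smul_eq_mul, mul_comm |c| t]
  exact mul_le_mul_of_nonneg_left h2 ht0.le

lemma est_mul {L A0 y z : A} (hL : P.Nef L) (hA : A0 ∈ P.Ample) (hy : Dom P L y)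
    (hz : Dom P L z) : Est P L A0 (y * z) := by
  obtain ⟨hy1, C1, hC1, hy2⟩ := hy
  obtain ⟨hz1, C2, hC2, hz2⟩ := hz
  set C := C1 + C2 with hCdef
  have hC : 0 ≤ C := by positivity
  have hyC := nef_mono_C P (C' := C) hL hy2 (by linarith)
  have hzC := nef_mono_C P (C' := C) hL hz2 (by linarith)
  obtain ⟨c1, hc1, hb1⟩ := exists_bound P (L := L) (A0 := A0) (y := y)
  obtain ⟨c0, hc0, hb0⟩ := exists_bound P (L := L) (A0 := A0) (y := 0)
  refine ⟨2 * (2 * C ^ 2 * c1 * (7 * (C + 2) * (7 * 3 * (7 * 2)))) +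
    2 * (2 * C ^ 2 * c0 * (7 * (C + 2) * (7 * 3 * (7 * 2)))), by positivity, ?_⟩
  intro t ht0 ht1 D hD hDL
  set X := -P.deg ((L + t • A0) * (L + t • A0) * (L + t • A0) * D * D) with hX
  have hX0 : 0 ≤ X := X_nonneg P hL hA ht0 hD hDL
  have hB : t • A0 ∈ P.Ample := P.ample_smul t ht0 _ hA
  have b1 := bound_one P hL hB hC hy1 hyC hz1 hzC hD hDL
  have b0 := bound_one P hL hB hC (nef_zero P) (by
    have := nef_smul P hL hC
    simpa using this) hz1 hzC hD hDL
  rw [← hX] at b1 b0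
  have hY0 : 0 ≤ 7 * (C + 2) * (7 * 3 * (7 * 2 * X)) := by positivity
  have t1 := hb1 t ht0 ht1
  have t0 := hb0 t ht0 ht1
  have b1' : P.deg ((t • A0) * (L + (L + t • A0)) * (y + (L + t • A0)) * z * D) ^ 2 ≤
      (2 * C ^ 2 * (c1 * t)) * (7 * (C + 2) * (7 * 3 * (7 * 2 * X))) :=
    b1.trans (mul_le_mul_of_nonneg_right (mul_le_mul_of_nonneg_left t1 (by positivity)) hY0)
  have b0' : P.deg ((t • A0) * (L + (L + t • A0)) * (0 + (L + t • A0)) * z * D) ^ 2 ≤
      (2 * C ^ 2 * (c0 * t)) * (7 * (C + 2) * (7 * 3 * (7 * 2 * X))) :=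
    b0.trans (mul_le_mul_of_nonneg_right (mul_le_mul_of_nonneg_left t0 (by positivity)) hY0)
  have e : P.deg ((t • A0) * (L + (L + t • A0)) * (y * z) * D) =
      P.deg ((t • A0) * (L + (L + t • A0)) * (y + (L + t • A0)) * z * D) -
      P.deg ((t • A0) * (L + (L + t • A0)) * (0 + (L + t • A0)) * z * D) := by
    rw [← map_sub]
    congr 1
    ring
  rw [e]
  set p := P.deg ((t • A0) * (L + (L + t • A0)) * (y + (L + t • A0)) * z * D)
  set q := P.deg ((t • A0) * (L + (L + t • A0)) * (0 + (L + t • A0)) * z * D)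
  have : (p - q) ^ 2 ≤ 2 * p ^ 2 + 2 * q ^ 2 := by nlinarith [sq_nonneg (p + q)]
  calc (p - q) ^ 2 ≤ 2 * p ^ 2 + 2 * q ^ 2 := this
    _ ≤ 2 * ((2 * C ^ 2 * (c1 * t)) * (7 * (C + 2) * (7 * 3 * (7 * 2 * X)))) +
        2 * ((2 * C ^ 2 * (c0 * t)) * (7 * (C + 2) * (7 * 3 * (7 * 2 * X)))) := by
      linarith
    _ = (2 * (2 * C ^ 2 * c1 * (7 * (C + 2) * (7 * 3 * (7 * 2)))) +
        2 * (2 * C ^ 2 * c0 * (7 * (C + 2) * (7 * 3 * (7 * 2))))) * t * X := by ring

lemma est_span {L A0 Φ : A} (hL : P.Nef L) (hA : A0 ∈ P.Ample) (hΦ : Φ ∈ DomSpan P L) :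
    Est P L A0 Φ := by
  induction hΦ using Submodule.span_induction with
  | mem x hx =>
    obtain ⟨y, z, hy, hz, rfl⟩ := hx
    exact est_mul P hL hA hy hz
  | zero =>
    refine ⟨0, le_rfl, fun t _ _ D _ _ => ?_⟩
    simp
  | add x y _ _ hx hy =>
    obtain ⟨K1, hK1, h1⟩ := hx
    obtain ⟨K2, hK2, h2⟩ := hy
    refine ⟨2 * K1 + 2 * K2, by positivity, fun t ht0 ht1 D hD hDL => ?_⟩
    have a1 := h1 t ht0 ht1 D hD hDL
    have a2 := h2 t ht0 ht1 D hD hDL
    rw [mul_add, add_mul, map_add]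
    set p := P.deg ((t • A0) * (L + (L + t • A0)) * x * D)
    set q := P.deg ((t • A0) * (L + (L + t • A0)) * y * D)
    have : (p + q) ^ 2 ≤ 2 * p ^ 2 + 2 * q ^ 2 := by nlinarith [sq_nonneg (p - q)]
    nlinarith
  | smul c x _ hx =>
    obtain ⟨K, hK, h⟩ := hx
    refine ⟨c ^ 2 * K, by positivity, fun t ht0 ht1 D hD hDL => ?_⟩
    have a := h t ht0 ht1 D hD hDL
    rw [mul_smul_comm, smul_mul_assoc, map_smul, smul_eq_mul, mul_pow]
    have := mul_le_mul_of_nonneg_left a (sq_nonneg c)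
    calc _ ≤ _ := this
      _ = _ := by ring

/-- Hodge-Riemann in degree two for a nef class. -/
theorem limit_hr {L Φ : A} (hL : P.Nef L) (hΦ : Φ ∈ DomSpan P L)
    (h0 : ∀ D ∈ P.N, P.deg (L * L * Φ * D) = 0) : 0 ≤ P.deg (L * Φ * Φ) := by
  obtain ⟨A0, hA⟩ := P.ample_nonempty
  obtain ⟨K, hK, hest⟩ := est_span P hL hA hΦ
  have hΦN : Φ ∈ P.N * P.N := by
    have : DomSpan P L ≤ P.N * P.N := by
      refine Submodule.span_le.mpr ?_
      rintro _ ⟨y, z, hy, hz, rfl⟩
      exact Submodule.mul_mem_mul hy.1.1 hz.1.1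
    exact this hΦ
  have main : ∀ t : ℝ, 0 < t → t ≤ 1 → -(K * t) ≤ P.deg ((L + t • A0) * Φ * Φ) := by
    intro t ht0 ht1
    set R := L + t • A0 with hR
    have hRA : R ∈ P.Ample := hL.2 A0 hA t ht0
    have hRN : R ∈ P.N := P.ample_mem _ hRA
    obtain ⟨u, hu, hu2⟩ := P.lefschetz R hRA Φ hΦN
    have hΨN : Φ - R * u ∈ P.N * P.N :=
      Submodule.sub_mem _ hΦN (Submodule.mul_mem_mul hRN hu)
    have hr := P.riemann R hRA (Φ - R * u) hΨN (by
      intro D hD
      have e : R ^ (5 - 3) * (Φ - R * u) * D = R ^ (5 - 3) * Φ * D - R ^ (5 - 2) * u * D := by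
        norm_num
        ring
      rw [e, map_sub, hu2 D hD, sub_self])
    have hu3 := hu2 u hu
    norm_num at hu3 hr
    have e1 : R * (Φ - R * u) ^ 2 =
        R * Φ * Φ - (2 : ℝ) • (R ^ 2 * Φ * u) + R ^ 3 * u * u := by
      simp only [Algebra.smul_def, map_ofNat]
      ring
    rw [e1, map_add, map_sub, map_smul, smul_eq_mul, ← hu3] at hr
    have hge : P.deg (R ^ 3 * u * u) ≤ P.deg (R * Φ * Φ) := by linarith
    -- primitive part of `u`
    set α := P.deg (R * R * R * R * R) with hα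
    have hαpos : 0 < α := pos5 P hRA hRA hRA hRA hRA
    set s := P.deg (R * R * R * R * u) / α with hs
    have hs2 : P.deg (R * R * R * R * u) = s * α := by
      rw [hs]; field_simp
    set u0 := u - s • R with hu0
    have hu0N : u0 ∈ P.N := P.N.sub_mem hu (P.N.smul_mem _ hRN)
    have hperp : P.deg (R * R * R * R * u0) = 0 := by
      rw [hu0, mul_sub, map_sub, mul_smul_comm, map_smul, smul_eq_mul, hs2]
      ring
    have hb := hest t ht0 ht1 u0 hu0N hperp
    have hX0 := X_nonneg P hL hA ht0 hu0N hperp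
    rw [← hR] at hb hX0
    set X := -P.deg (R * R * R * u0 * u0) with hX
    have hLu := h0 u0 hu0N
    have hu4 := hu2 u0 hu0N
    norm_num at hu4
    have e2 : P.deg ((t • A0) * (L + R) * Φ * u0) = -X := by
      have e3 : (t • A0) * (L + R) * Φ * u0 = R ^ 2 * Φ * u0 - L * L * Φ * u0 := by
        have : t • A0 = R - L := by rw [hR]; abel
        rw [this]
        ring
      have e4 : R ^ 3 * u * u0 = R * R * R * u0 * u0 + s • (R * R * R * R * u0) := by
        have : u = u0 + s • R := by rw [hu0]; abel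
        rw [this]
        simp only [Algebra.smul_def]
        ring
      rw [e3, map_sub, hLu, sub_zero, ← hu4, e4, map_add, map_smul, hperp, smul_zero, add_zero,
        hX, neg_neg]
    rw [e2] at hb
    have hXK : X ≤ K * t := by
      by_contra hc
      push Not at hc
      have hXpos : 0 < X := lt_of_le_of_lt (by positivity) hc
      nlinarith
    have e5 : P.deg (R ^ 3 * u * u) = s ^ 2 * α - X := by
      have : R ^ 3 * u * u = R * R * R * u0 * u0 + (2 * s) • (R * R * R * R * u0) +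
          (s ^ 2) • (R * R * R * R * R) := by
        have : u = u0 + s • R := by rw [hu0]; abel
        rw [this]
        simp only [Algebra.smul_def, map_pow, map_mul, map_ofNat]
        ring
      rw [this, map_add, map_add, map_smul, map_smul, hperp, smul_zero, add_zero, smul_eq_mul,
        hX]
      ring
    rw [e5] at hge
    have : 0 ≤ s ^ 2 * α := by positivity
    linarith
  have c1 : Continuous fun t : ℝ => P.deg ((L + t • A0) * Φ * Φ) :=
    (PC_mul_const (PC_mul_const (PC_aff L A0) Φ) Φ) P.deg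
  have t1 : Filter.Tendsto (fun t : ℝ => P.deg ((L + t • A0) * Φ * Φ))
      (nhdsWithin 0 (Set.Ioi 0)) (nhds (P.deg (L * Φ * Φ))) := by
    have h := (c1.tendsto 0).mono_left (nhdsWithin_le_nhds (s := Set.Ioi (0 : ℝ)))
    simpa using h
  have t2 : Filter.Tendsto (fun t : ℝ => -(K * t)) (nhdsWithin 0 (Set.Ioi 0)) (nhds 0) := by
    have hc : Continuous fun t : ℝ => -(K * t) := by fun_prop
    have h := (hc.tendsto 0).mono_left (nhdsWithin_le_nhds (s := Set.Ioi (0 : ℝ)))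
    simpa using h
  refine le_of_tendsto_of_tendsto t2 t1 ?_
  have hmem : Set.Ioo (0 : ℝ) 1 ∈ nhdsWithin (0 : ℝ) (Set.Ioi 0) :=
    Ioo_mem_nhdsGT one_pos
  filter_upwards [hmem] with t ht
  exact main t ht.1 ht.2.le

end EurHuhHR
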