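import Pool.Agent.Work.MP_9eee85_co_hr.LimitHR

/-!
The numerical contradiction for the volume polynomial of the five element example.
-/

namespace EurHuhHR

/-- The polynomial: all subsets of `{1, 2, 3, 4, 5}` with at least two elements, except `{1, 2}`
and `{3, 4}`, homogenized with the variable `0`. -/
def pZ (w : Fin 6 → ℤ) : ℤ :=
  w 1 * w 2 * w 3 * w 4 * w 5 +
  w 0 * (w 1 * w 2 * w 3 * w 4 + w 1 * w 2 * w 3 * w 5 + w 1 * w 2 * w 4 * w 5 +
    w 1 * w 3 * w 4 * w 5 + w 2 * w 3 * w 4 * w 5) +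
  w 0 ^ 2 * (w 1 * w 2 * w 3 + w 1 * w 2 * w 4 + w 1 * w 2 * w 5 + w 1 * w 3 * w 4 +
    w 1 * w 3 * w 5 + w 1 * w 4 * w 5 + w 2 * w 3 * w 4 + w 2 * w 3 * w 5 + w 2 * w 4 * w 5 +
    w 3 * w 4 * w 5) +
  w 0 ^ 3 * (w 1 * w 3 + w 1 * w 4 + w 1 * w 5 + w 2 * w 3 + w 2 * w 4 + w 2 * w 5 +
    w 3 * w 5 + w 4 * w 5)

/-- polarization of `pZ`, multiplied by `120` -/
def MZ (w1 w2 w3 w4 w5 : Fin 6 → ℤ) : ℤ :=
  pZ (w1 + w2 + w3 + w4 + w5) -
  (pZ (w2 + w3 + w4 + w5) + pZ (w1 + w3 + w4 + w5) + pZ (w1 + w2 + w4 + w5) +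
    pZ (w1 + w2 + w3 + w5) + pZ (w1 + w2 + w3 + w4)) +
  (pZ (w1 + w2 + w3) + pZ (w1 + w2 + w4) + pZ (w1 + w2 + w5) + pZ (w1 + w3 + w4) +
    pZ (w1 + w3 + w5) + pZ (w1 + w4 + w5) + pZ (w2 + w3 + w4) + pZ (w2 + w3 + w5) +
    pZ (w2 + w4 + w5) + pZ (w3 + w4 + w5)) -
  (pZ (w1 + w2) + pZ (w1 + w3) + pZ (w1 + w4) + pZ (w1 + w5) + pZ (w2 + w3) + pZ (w2 + w4) +
    pZ (w2 + w5) + pZ (w3 + w4) + pZ (w3 + w5) + pZ (w4 + w5)) +
  (pZ w1 + pZ w2 + pZ w3 + pZ w4 + pZ w5)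

/-- unit vectors -/
def E (j : Fin 6) : Fin 6 → ℤ := fun i => if i = j then 1 else 0

/-- the vector of ones -/
def ones : Fin 6 → ℤ := fun _ => 1

lemma pol_identity {A : Type*} [CommRing A] (a b c d e : A) :
    (a + b + c + d + e) ^ 5 -
    ((b + c + d + e) ^ 5 + (a + c + d + e) ^ 5 + (a + b + d + e) ^ 5 +
      (a + b + c + e) ^ 5 + (a + b + c + d) ^ 5) +
    ((a + b + c) ^ 5 + (a + b + d) ^ 5 + (a + b + e) ^ 5 + (a + c + d) ^ 5 +
      (a + c + e) ^ 5 + (a + d + e) ^ 5 + (b + c + d) ^ 5 + (b + c + e) ^ 5 +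
      (b + d + e) ^ 5 + (c + d + e) ^ 5) -
    ((a + b) ^ 5 + (a + c) ^ 5 + (a + d) ^ 5 + (a + e) ^ 5 + (b + c) ^ 5 + (b + d) ^ 5 +
      (b + e) ^ 5 + (c + d) ^ 5 + (c + e) ^ 5 + (d + e) ^ 5) +
    (a ^ 5 + b ^ 5 + c ^ 5 + d ^ 5 + e ^ 5) = 120 * (a * b * c * d * e) := by ring

section

variable {A : Type*} [CommRing A]

/-- integral combinations of the generators -/
def X (g : Fin 6 → A) (w : Fin 6 → ℤ) : A := ∑ i, w i • g i

lemma X_add (g : Fin 6 → A) (w w' : Fin 6 → ℤ) : X g (w + w') = X g w + X g w' := by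
  simp [X, add_smul, Finset.sum_add_distrib]

lemma X_sub (g : Fin 6 → A) (w w' : Fin 6 → ℤ) : X g (w - w') = X g w - X g w' := by
  simp only [X, Pi.sub_apply, sub_smul, Finset.sum_sub_distrib]

lemma X_E (g : Fin 6 → A) (j : Fin 6) : X g (E j) = g j := by
  simp [X, E]

lemma X_three (g : Fin 6 → A) (j : Fin 6) : X g (3 * E j) = 3 * g j := by
  rw [← X_E g j, X, X, Finset.mul_sum]
  refine Finset.sum_congr rfl fun i _ => ?_
  simp [mul_smul]

end

variable {A : Type*} [CommRing A] [Algebra ℝ A] (P : KahlerPackage 5 A)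

/-- classes of codimension four which are numerically trivial -/
def Nul : AddSubgroup A where
  carrier := {z | ∀ D ∈ P.N, P.deg (z * D) = 0}
  zero_mem' := by intro D _; simp
  add_mem' := by
    intro x y hx hy D hD
    rw [add_mul, map_add, hx D hD, hy D hD, add_zero]
  neg_mem' := by
    intro x hx D hD
    rw [neg_mul, map_neg, hx D hD, neg_zero]

/-- the hypothesis on volumes -/
def HasVol (g : Fin 6 → A) : Prop := ∀ w : Fin 6 → ℤ, P.deg (X g w ^ 5) = (pZ w : ℝ)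

variable {P} {g : Fin 6 → A}

lemma mixed (hp : HasVol P g) (w1 w2 w3 w4 w5 : Fin 6 → ℤ) :
    120 * P.deg (X g w1 * X g w2 * X g w3 * X g w4 * X g w5) = (MZ w1 w2 w3 w4 w5 : ℝ) := by
  have h := congrArg P.deg (pol_identity (X g w1) (X g w2) (X g w3) (X g w4) (X g w5))
  have e : (120 : A) * (X g w1 * X g w2 * X g w3 * X g w4 * X g w5) =
      (120 : ℝ) • (X g w1 * X g w2 * X g w3 * X g w4 * X g w5) := by
    rw [Algebra.smul_def, map_ofNat]
  rw [e, map_smul, smul_eq_mul] at h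
  rw [← h]
  simp only [← X_add, map_add, map_sub]
  simp only [hp _, MZ]
  push_cast
  ring

lemma X_mem (hg : ∀ i, P.Nef (g i)) (w : Fin 6 → ℤ) : X g w ∈ P.N :=
  Submodule.sum_mem _ fun i _ => by
    rw [← Int.cast_smul_eq_zsmul ℝ]
    exact P.N.smul_mem _ (hg i).1

lemma nef_sum {ι : Type*} (s : Finset ι) (f : ι → A) (h : ∀ i ∈ s, P.Nef (f i)) :
    P.Nef (∑ i ∈ s, f i) := by
  classical
  induction s using Finset.induction_on with
  | empty => simpa using nef_zero P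
  | insert a s ha ih =>
    rw [Finset.sum_insert ha]
    exact nef_add P (h a (by simp)) (ih fun i hi => h i (by simp [hi]))

lemma X_nef (hg : ∀ i, P.Nef (g i)) {w : Fin 6 → ℤ} (hw : ∀ i, 0 ≤ w i) : P.Nef (X g w) := by
  refine nef_sum _ _ fun i _ => ?_
  rw [← Int.cast_smul_eq_zsmul ℝ]
  exact nef_smul P (hg i) (by exact_mod_cast hw i)

lemma rel (hg : ∀ i, P.Nef (g i)) (hp : HasVol P g) {w1 w2 w3 v k : Fin 6 → ℤ}
    (h1 : ∀ i, 0 ≤ w1 i) (h2 : ∀ i, 0 ≤ w2 i) (h3 : ∀ i, 0 ≤ w3 i) (hv : ∀ i, 0 ≤ v i)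
    (hvv : 0 < MZ w1 w2 w3 v v) (hvk : MZ w1 w2 w3 v k = 0) (hkk : MZ w1 w2 w3 k k = 0) :
    X g w1 * X g w2 * X g w3 * X g k ∈ Nul P := by
  intro D hD
  have a1 := mixed hp w1 w2 w3 v v
  have a2 := mixed hp w1 w2 w3 v k
  have a3 := mixed hp w1 w2 w3 k k
  rw [hvk] at a2
  rw [hkk] at a3
  have hvv' : (0 : ℝ) < (MZ w1 w2 w3 v v : ℝ) := by exact_mod_cast hvv
  refine af_zero P (X_nef hg h1) (X_nef hg h2) (X_nef hg h3) (X_nef hg hv) (X_mem hg k) ?_ ?_ ?_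
    hD
  · linarith
  · push_cast at a2; linarith
  · push_cast at a3; linarith

lemma sq_checks : ∀ i : Fin 5, ∀ j k : Fin 6,
    (0 < MZ (E i.succ) (E j + ones) (E k + ones) ones ones ∧
    MZ (E i.succ) (E j + ones) (E k + ones) ones (E i.succ) = 0 ∧
    MZ (E i.succ) (E j + ones) (E k + ones) (E i.succ) (E i.succ) = 0) ∧
    (0 < MZ (E i.succ) (E j + ones) ones ones ones ∧
    MZ (E i.succ) (E j + ones) ones ones (E i.succ) = 0 ∧
    MZ (E i.succ) (E j + ones) ones (E i.succ) (E i.succ) = 0) ∧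
    (0 < MZ (E i.succ) ones ones ones ones ∧
    MZ (E i.succ) ones ones ones (E i.succ) = 0 ∧
    MZ (E i.succ) ones ones (E i.succ) (E i.succ) = 0) := by decide +kernel

lemma E_nonneg : ∀ j : Fin 6, ∀ i, 0 ≤ E j i := by decide +kernel

lemma E_add_nonneg : ∀ j : Fin 6, ∀ i, 0 ≤ (E j + ones) i := by decide +kernel

lemma ones_nonneg : ∀ i, 0 ≤ ones i := by decide +kernel

lemma sqmem (hg : ∀ i, P.Nef (g i)) (hp : HasVol P g) (i : Fin 5) (j k : Fin 6) :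
    g i.succ * g i.succ * g j * g k ∈ Nul P := by
  obtain ⟨⟨a1, a2, a3⟩, ⟨b1, b2, b3⟩, c1, c2, c3⟩ := sq_checks i j k
  obtain ⟨-, ⟨d1, d2, d3⟩, -⟩ := sq_checks i k k
  have hA := rel hg hp (E_nonneg _) (E_add_nonneg j) (E_add_nonneg k) ones_nonneg a1 a2 a3
  have hB := rel hg hp (E_nonneg _) (E_add_nonneg j) ones_nonneg ones_nonneg b1 b2 b3
  have hC := rel hg hp (E_nonneg _) ones_nonneg ones_nonneg ones_nonneg c1 c2 c3
  have hD := rel hg hp (E_nonneg _) (E_add_nonneg k) ones_nonneg ones_nonneg d1 d2 d3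
  have h := add_mem (sub_mem (sub_mem hA hB) hD) hC
  simp only [X_add, X_E] at h
  have e : g i.succ * g i.succ * g j * g k =
      g i.succ * (g j + X g ones) * (g k + X g ones) * g i.succ -
        g i.succ * (g j + X g ones) * X g ones * g i.succ -
        g i.succ * (g k + X g ones) * X g ones * g i.succ +
        g i.succ * X g ones * X g ones * g i.succ := by ring
  rw [e]
  exact h

/-- the class `Φ` -/
def Phi (g : Fin 6 → A) : A :=
  (4557 : ℤ) • (g 1 * g 2 - g 3 * g 4) -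
    ((735 : ℤ) • g 0 + (352 : ℤ) • g 5) * (g 1 + g 2 - g 3 - g 4)

/-- the nef and big class `L` -/
def Lc (g : Fin 6 → A) : A := (20 : ℤ) • g 0 + g 1 + g 2 + g 3 + g 4 + g 5

set_option maxRecDepth 20000 in
lemma LLPhi (hg : ∀ i, P.Nef (g i)) (hp : HasVol P g) : Lc g * Lc g * Phi g ∈ Nul P := by
  have r0 : g 1 * g 2 * g 3 * (g 4 + g 5 - g 0) ∈ Nul P := by
    have h := rel hg hp (w1 := E 1) (w2 := E 2) (w3 := E 3) (v := E 4 + E 5) (k := E 4 + E 5 - E 0)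
      (by decide +kernel) (by decide +kernel) (by decide +kernel) (by decide +kernel)
      (by decide +kernel) (by decide +kernel) (by decide +kernel)
    simpa only [X_add, X_sub, X_E, X_three] using h
  have r1 : g 1 * g 2 * g 4 * (g 3 + g 5 - g 0) ∈ Nul P := by
    have h := rel hg hp (w1 := E 1) (w2 := E 2) (w3 := E 4) (v := E 3 + E 5) (k := E 3 + E 5 - E 0)
      (by decide +kernel) (by decide +kernel) (by decide +kernel) (by decide +kernel)
      (by decide +kernel) (by decide +kernel) (by decide +kernel)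
    simpa only [X_add, X_sub, X_E, X_three] using h
  have r2 : g 1 * g 2 * g 5 * (g 3 + g 4 - g 0) ∈ Nul P := by
    have h := rel hg hp (w1 := E 1) (w2 := E 2) (w3 := E 5) (v := E 3 + E 4) (k := E 3 + E 4 - E 0)
      (by decide +kernel) (by decide +kernel) (by decide +kernel) (by decide +kernel)
      (by decide +kernel) (by decide +kernel) (by decide +kernel)
    simpa only [X_add, X_sub, X_E, X_three] using h
  have r3 : g 1 * g 3 * g 4 * (g 2 + g 5 - g 0) ∈ Nul P := by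
    have h := rel hg hp (w1 := E 1) (w2 := E 3) (w3 := E 4) (v := E 2 + E 5) (k := E 2 + E 5 - E 0)
      (by decide +kernel) (by decide +kernel) (by decide +kernel) (by decide +kernel)
      (by decide +kernel) (by decide +kernel) (by decide +kernel)
    simpa only [X_add, X_sub, X_E, X_three] using h
  have r4 : g 2 * g 3 * g 4 * (g 1 + g 5 - g 0) ∈ Nul P := by
    have h := rel hg hp (w1 := E 2) (w2 := E 3) (w3 := E 4) (v := E 1 + E 5) (k := E 1 + E 5 - E 0)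
      (by decide +kernel) (by decide +kernel) (by decide +kernel) (by decide +kernel)
      (by decide +kernel) (by decide +kernel) (by decide +kernel)
    simpa only [X_add, X_sub, X_E, X_three] using h
  have r5 : g 3 * g 4 * g 5 * (g 1 + g 2 - g 0) ∈ Nul P := by
    have h := rel hg hp (w1 := E 3) (w2 := E 4) (w3 := E 5) (v := E 1 + E 2) (k := E 1 + E 2 - E 0)
      (by decide +kernel) (by decide +kernel) (by decide +kernel) (by decide +kernel)
      (by decide +kernel) (by decide +kernel) (by decide +kernel)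
    simpa only [X_add, X_sub, X_E, X_three] using h
  have r6 : g 0 * g 1 * g 5 * (g 2 + g 3 + g 4 - g 0) ∈ Nul P := by
    have h := rel hg hp (w1 := E 0) (w2 := E 1) (w3 := E 5) (v := E 2 + E 3 + E 4) (k := E 2 + E 3 + E 4 - E 0)
      (by decide +kernel) (by decide +kernel) (by decide +kernel) (by decide +kernel)
      (by decide +kernel) (by decide +kernel) (by decide +kernel)
    simpa only [X_add, X_sub, X_E, X_three] using h
  have r7 : g 0 * g 2 * g 5 * (g 1 + g 3 + g 4 - g 0) ∈ Nul P := by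
    have h := rel hg hp (w1 := E 0) (w2 := E 2) (w3 := E 5) (v := E 1 + E 3 + E 4) (k := E 1 + E 3 + E 4 - E 0)
      (by decide +kernel) (by decide +kernel) (by decide +kernel) (by decide +kernel)
      (by decide +kernel) (by decide +kernel) (by decide +kernel)
    simpa only [X_add, X_sub, X_E, X_three] using h
  have r8 : g 0 * g 3 * g 5 * (g 1 + g 2 + g 4 - g 0) ∈ Nul P := by
    have h := rel hg hp (w1 := E 0) (w2 := E 3) (w3 := E 5) (v := E 1 + E 2 + E 4) (k := E 1 + E 2 + E 4 - E 0)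
      (by decide +kernel) (by decide +kernel) (by decide +kernel) (by decide +kernel)
      (by decide +kernel) (by decide +kernel) (by decide +kernel)
    simpa only [X_add, X_sub, X_E, X_three] using h
  have r9 : g 0 * g 4 * g 5 * (g 1 + g 2 + g 3 - g 0) ∈ Nul P := by
    have h := rel hg hp (w1 := E 0) (w2 := E 4) (w3 := E 5) (v := E 1 + E 2 + E 3) (k := E 1 + E 2 + E 3 - E 0)
      (by decide +kernel) (by decide +kernel) (by decide +kernel) (by decide +kernel)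
      (by decide +kernel) (by decide +kernel) (by decide +kernel)
    simpa only [X_add, X_sub, X_E, X_three] using h
  have r10 : g 0 * g 0 * g 1 * (g 0 - 3 * g 2) ∈ Nul P := by
    have h := rel hg hp (w1 := E 0) (w2 := E 0) (w3 := E 1) (v := E 3 + E 4 + E 5) (k := E 0 - 3 * E 2)
      (by decide +kernel) (by decide +kernel) (by decide +kernel) (by decide +kernel)
      (by decide +kernel) (by decide +kernel) (by decide +kernel)
    simpa only [X_add, X_sub, X_E, X_three] using h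
  have r11 : g 0 * g 0 * g 2 * (g 0 - 3 * g 1) ∈ Nul P := by
    have h := rel hg hp (w1 := E 0) (w2 := E 0) (w3 := E 2) (v := E 3 + E 4 + E 5) (k := E 0 - 3 * E 1)
      (by decide +kernel) (by decide +kernel) (by decide +kernel) (by decide +kernel)
      (by decide +kernel) (by decide +kernel) (by decide +kernel)
    simpa only [X_add, X_sub, X_E, X_three] using h
  have r12 : g 0 * g 0 * g 3 * (g 0 - 3 * g 4) ∈ Nul P := by
    have h := rel hg hp (w1 := E 0) (w2 := E 0) (w3 := E 3) (v := E 1 + E 2 + E 5) (k := E 0 - 3 * E 4)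
      (by decide +kernel) (by decide +kernel) (by decide +kernel) (by decide +kernel)
      (by decide +kernel) (by decide +kernel) (by decide +kernel)
    simpa only [X_add, X_sub, X_E, X_three] using h
  have r13 : g 0 * g 0 * g 4 * (g 0 - 3 * g 3) ∈ Nul P := by
    have h := rel hg hp (w1 := E 0) (w2 := E 0) (w3 := E 4) (v := E 1 + E 2 + E 5) (k := E 0 - 3 * E 3)
      (by decide +kernel) (by decide +kernel) (by decide +kernel) (by decide +kernel)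
      (by decide +kernel) (by decide +kernel) (by decide +kernel)
    simpa only [X_add, X_sub, X_E, X_three] using h
  have key : Lc g * Lc g * Phi g =
      (-180810 : ℤ) • (g 1 * g 2 * g 3 * (g 4 + g 5 - g 0)) +
      (-180810 : ℤ) • (g 1 * g 2 * g 4 * (g 3 + g 5 - g 0)) +
      (189220 : ℤ) • (g 1 * g 2 * g 5 * (g 3 + g 4 - g 0)) +
      (180810 : ℤ) • (g 1 * g 3 * g 4 * (g 2 + g 5 - g 0)) +
      (180810 : ℤ) • (g 2 * g 3 * g 4 * (g 1 + g 5 - g 0)) +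
      (-189220 : ℤ) • (g 3 * g 4 * g 5 * (g 1 + g 2 - g 0)) +
      (170200 : ℤ) • (g 0 * g 1 * g 5 * (g 2 + g 3 + g 4 - g 0)) +
      (170200 : ℤ) • (g 0 * g 2 * g 5 * (g 1 + g 3 + g 4 - g 0)) +
      (-170200 : ℤ) • (g 0 * g 3 * g 5 * (g 1 + g 2 + g 4 - g 0)) +
      (-170200 : ℤ) • (g 0 * g 4 * g 5 * (g 1 + g 2 + g 3 - g 0)) +
      (-294000 : ℤ) • (g 0 * g 0 * g 1 * (g 0 - 3 * g 2)) +
      (-294000 : ℤ) • (g 0 * g 0 * g 2 * (g 0 - 3 * g 1)) +
      (294000 : ℤ) • (g 0 * g 0 * g 3 * (g 0 - 3 * g 4)) +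
      (294000 : ℤ) • (g 0 * g 0 * g 4 * (g 0 - 3 * g 3)) +
      (-29400 : ℤ) • (g 1 * g 1 * g 0 * g 0) +
      (-29400 : ℤ) • (g 2 * g 2 * g 0 * g 0) +
      (29400 : ℤ) • (g 3 * g 3 * g 0 * g 0) +
      (29400 : ℤ) • (g 4 * g 4 * g 0 * g 0) +
      (-735 : ℤ) • (g 1 * g 1 * g 0 * g 1) +
      (180075 : ℤ) • (g 1 * g 1 * g 0 * g 2) +
      (-735 : ℤ) • (g 1 * g 1 * g 0 * g 3) +
      (-735 : ℤ) • (g 1 * g 1 * g 0 * g 4) +
      (-15550 : ℤ) • (g 1 * g 1 * g 0 * g 5) +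
      (180075 : ℤ) • (g 2 * g 2 * g 0 * g 1) +
      (735 : ℤ) • (g 3 * g 3 * g 0 * g 1) +
      (735 : ℤ) • (g 4 * g 4 * g 0 * g 1) +
      (-14815 : ℤ) • (g 5 * g 5 * g 0 * g 1) +
      (-735 : ℤ) • (g 2 * g 2 * g 0 * g 2) +
      (-735 : ℤ) • (g 2 * g 2 * g 0 * g 3) +
      (-735 : ℤ) • (g 2 * g 2 * g 0 * g 4) +
      (-15550 : ℤ) • (g 2 * g 2 * g 0 * g 5) +
      (735 : ℤ) • (g 3 * g 3 * g 0 * g 2) +
      (735 : ℤ) • (g 4 * g 4 * g 0 * g 2) +
      (-14815 : ℤ) • (g 5 * g 5 * g 0 * g 2) +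
      (735 : ℤ) • (g 3 * g 3 * g 0 * g 3) +
      (-180075 : ℤ) • (g 3 * g 3 * g 0 * g 4) +
      (15550 : ℤ) • (g 3 * g 3 * g 0 * g 5) +
      (-180075 : ℤ) • (g 4 * g 4 * g 0 * g 3) +
      (14815 : ℤ) • (g 5 * g 5 * g 0 * g 3) +
      (735 : ℤ) • (g 4 * g 4 * g 0 * g 4) +
      (15550 : ℤ) • (g 4 * g 4 * g 0 * g 5) +
      (14815 : ℤ) • (g 5 * g 5 * g 0 * g 4) +
      (4557 : ℤ) • (g 1 * g 1 * g 1 * g 2) +
      (-352 : ℤ) • (g 1 * g 1 * g 1 * g 5) +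
      (9114 : ℤ) • (g 1 * g 1 * g 2 * g 2) +
      (9114 : ℤ) • (g 1 * g 1 * g 2 * g 3) +
      (9114 : ℤ) • (g 1 * g 1 * g 2 * g 4) +
      (8058 : ℤ) • (g 1 * g 1 * g 2 * g 5) +
      (-4557 : ℤ) • (g 1 * g 1 * g 3 * g 4) +
      (-352 : ℤ) • (g 1 * g 1 * g 3 * g 5) +
      (-352 : ℤ) • (g 1 * g 1 * g 4 * g 5) +
      (-704 : ℤ) • (g 1 * g 1 * g 5 * g 5) +
      (4557 : ℤ) • (g 2 * g 2 * g 1 * g 2) +
      (9114 : ℤ) • (g 2 * g 2 * g 1 * g 3) +
      (9114 : ℤ) • (g 2 * g 2 * g 1 * g 4) +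
      (8058 : ℤ) • (g 2 * g 2 * g 1 * g 5) +
      (4557 : ℤ) • (g 3 * g 3 * g 1 * g 2) +
      (4557 : ℤ) • (g 4 * g 4 * g 1 * g 2) +
      (3149 : ℤ) • (g 5 * g 5 * g 1 * g 2) +
      (-9114 : ℤ) • (g 3 * g 3 * g 1 * g 4) +
      (352 : ℤ) • (g 3 * g 3 * g 1 * g 5) +
      (-9114 : ℤ) • (g 4 * g 4 * g 1 * g 3) +
      (352 : ℤ) • (g 4 * g 4 * g 1 * g 5) +
      (-352 : ℤ) • (g 5 * g 5 * g 1 * g 5) +
      (-352 : ℤ) • (g 2 * g 2 * g 2 * g 5) +
      (-4557 : ℤ) • (g 2 * g 2 * g 3 * g 4) +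
      (-352 : ℤ) • (g 2 * g 2 * g 3 * g 5) +
      (-352 : ℤ) • (g 2 * g 2 * g 4 * g 5) +
      (-704 : ℤ) • (g 2 * g 2 * g 5 * g 5) +
      (-9114 : ℤ) • (g 3 * g 3 * g 2 * g 4) +
      (352 : ℤ) • (g 3 * g 3 * g 2 * g 5) +
      (-9114 : ℤ) • (g 4 * g 4 * g 2 * g 3) +
      (352 : ℤ) • (g 4 * g 4 * g 2 * g 5) +
      (-352 : ℤ) • (g 5 * g 5 * g 2 * g 5) +
      (-4557 : ℤ) • (g 3 * g 3 * g 3 * g 4) +
      (352 : ℤ) • (g 3 * g 3 * g 3 * g 5) +
      (-9114 : ℤ) • (g 3 * g 3 * g 4 * g 4) +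
      (-8058 : ℤ) • (g 3 * g 3 * g 4 * g 5) +
      (704 : ℤ) • (g 3 * g 3 * g 5 * g 5) +
      (-4557 : ℤ) • (g 4 * g 4 * g 3 * g 4) +
      (-8058 : ℤ) • (g 4 * g 4 * g 3 * g 5) +
      (-3149 : ℤ) • (g 5 * g 5 * g 3 * g 4) +
      (352 : ℤ) • (g 5 * g 5 * g 3 * g 5) +
      (352 : ℤ) • (g 4 * g 4 * g 4 * g 5) +
      (704 : ℤ) • (g 4 * g 4 * g 5 * g 5) +
      (352 : ℤ) • (g 5 * g 5 * g 4 * g 5) := by
    simp only [Lc, Phi, zsmul_eq_mul]
    push_cast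
    ring
  rw [key]
  exact add_mem (add_mem (add_mem (add_mem (add_mem (add_mem (add_mem (add_mem (add_mem (add_mem (add_mem (add_mem (add_mem (add_mem (add_mem (add_mem (add_mem (add_mem (add_mem (add_mem (add_mem (add_mem (add_mem (add_mem (add_mem (add_mem (add_mem (add_mem (add_mem (add_mem (add_mem (add_mem (add_mem (add_mem (add_mem (add_mem (add_mem (add_mem (add_mem (add_mem (add_mem (add_mem (add_mem (add_mem (add_mem (add_mem (add_mem (add_mem (add_mem (add_mem (add_mem (add_mem (add_mem (add_mem (add_mem (add_mem (add_mem (add_mem (add_mem (add_mem (add_mem (add_mem (add_mem (add_mem (add_mem (add_mem (add_mem (add_mem (add_mem (add_mem (add_mem (add_mem (add_mem (add_mem (add_mem (add_mem (add_mem (add_mem (add_mem (add_mem (add_mem (add_mem (add_mem (add_mem (add_mem (zsmul_mem r0 _)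
    (zsmul_mem r1 _))
    (zsmul_mem r2 _))
    (zsmul_mem r3 _))
    (zsmul_mem r4 _))
    (zsmul_mem r5 _))
    (zsmul_mem r6 _))
    (zsmul_mem r7 _))
    (zsmul_mem r8 _))
    (zsmul_mem r9 _))
    (zsmul_mem r10 _))
    (zsmul_mem r11 _))
    (zsmul_mem r12 _))
    (zsmul_mem r13 _))
    (zsmul_mem (sqmem hg hp 0 0 0) _))
    (zsmul_mem (sqmem hg hp 1 0 0) _))
    (zsmul_mem (sqmem hg hp 2 0 0) _))
    (zsmul_mem (sqmem hg hp 3 0 0) _))
    (zsmul_mem (sqmem hg hp 0 0 1) _))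
    (zsmul_mem (sqmem hg hp 0 0 2) _))
    (zsmul_mem (sqmem hg hp 0 0 3) _))
    (zsmul_mem (sqmem hg hp 0 0 4) _))
    (zsmul_mem (sqmem hg hp 0 0 5) _))
    (zsmul_mem (sqmem hg hp 1 0 1) _))
    (zsmul_mem (sqmem hg hp 2 0 1) _))
    (zsmul_mem (sqmem hg hp 3 0 1) _))
    (zsmul_mem (sqmem hg hp 4 0 1) _))
    (zsmul_mem (sqmem hg hp 1 0 2) _))
    (zsmul_mem (sqmem hg hp 1 0 3) _))
    (zsmul_mem (sqmem hg hp 1 0 4) _))
    (zsmul_mem (sqmem hg hp 1 0 5) _))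
    (zsmul_mem (sqmem hg hp 2 0 2) _))
    (zsmul_mem (sqmem hg hp 3 0 2) _))
    (zsmul_mem (sqmem hg hp 4 0 2) _))
    (zsmul_mem (sqmem hg hp 2 0 3) _))
    (zsmul_mem (sqmem hg hp 2 0 4) _))
    (zsmul_mem (sqmem hg hp 2 0 5) _))
    (zsmul_mem (sqmem hg hp 3 0 3) _))
    (zsmul_mem (sqmem hg hp 4 0 3) _))
    (zsmul_mem (sqmem hg hp 3 0 4) _))
    (zsmul_mem (sqmem hg hp 3 0 5) _))
    (zsmul_mem (sqmem hg hp 4 0 4) _))
    (zsmul_mem (sqmem hg hp 0 1 2) _))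
    (zsmul_mem (sqmem hg hp 0 1 5) _))
    (zsmul_mem (sqmem hg hp 0 2 2) _))
    (zsmul_mem (sqmem hg hp 0 2 3) _))
    (zsmul_mem (sqmem hg hp 0 2 4) _))
    (zsmul_mem (sqmem hg hp 0 2 5) _))
    (zsmul_mem (sqmem hg hp 0 3 4) _))
    (zsmul_mem (sqmem hg hp 0 3 5) _))
    (zsmul_mem (sqmem hg hp 0 4 5) _))
    (zsmul_mem (sqmem hg hp 0 5 5) _))
    (zsmul_mem (sqmem hg hp 1 1 2) _))
    (zsmul_mem (sqmem hg hp 1 1 3) _))
    (zsmul_mem (sqmem hg hp 1 1 4) _))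
    (zsmul_mem (sqmem hg hp 1 1 5) _))
    (zsmul_mem (sqmem hg hp 2 1 2) _))
    (zsmul_mem (sqmem hg hp 3 1 2) _))
    (zsmul_mem (sqmem hg hp 4 1 2) _))
    (zsmul_mem (sqmem hg hp 2 1 4) _))
    (zsmul_mem (sqmem hg hp 2 1 5) _))
    (zsmul_mem (sqmem hg hp 3 1 3) _))
    (zsmul_mem (sqmem hg hp 3 1 5) _))
    (zsmul_mem (sqmem hg hp 4 1 5) _))
    (zsmul_mem (sqmem hg hp 1 2 5) _))
    (zsmul_mem (sqmem hg hp 1 3 4) _))
    (zsmul_mem (sqmem hg hp 1 3 5) _))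
    (zsmul_mem (sqmem hg hp 1 4 5) _))
    (zsmul_mem (sqmem hg hp 1 5 5) _))
    (zsmul_mem (sqmem hg hp 2 2 4) _))
    (zsmul_mem (sqmem hg hp 2 2 5) _))
    (zsmul_mem (sqmem hg hp 3 2 3) _))
    (zsmul_mem (sqmem hg hp 3 2 5) _))
    (zsmul_mem (sqmem hg hp 4 2 5) _))
    (zsmul_mem (sqmem hg hp 2 3 4) _))
    (zsmul_mem (sqmem hg hp 2 3 5) _))
    (zsmul_mem (sqmem hg hp 2 4 4) _))
    (zsmul_mem (sqmem hg hp 2 4 5) _))
    (zsmul_mem (sqmem hg hp 2 5 5) _))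
    (zsmul_mem (sqmem hg hp 3 3 4) _))
    (zsmul_mem (sqmem hg hp 3 3 5) _))
    (zsmul_mem (sqmem hg hp 4 3 4) _))
    (zsmul_mem (sqmem hg hp 4 3 5) _))
    (zsmul_mem (sqmem hg hp 3 4 5) _))
    (zsmul_mem (sqmem hg hp 3 5 5) _))
    (zsmul_mem (sqmem hg hp 4 4 5) _)

end EurHuhHR
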