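import Mathlib

/-!
Algebras with the Kähler package in degrees at most two, and the passage to nef classes.
-/

namespace EurHuhHR

/-- Divisor classes, degree and ample cone on a real commutative algebra `A` (to be thought of as
the algebra of `(k,k)`-classes of a `d`-dimensional projective manifold), subject to the Kähler
package in degrees at most two: positivity of products of ample classes, the mixed Hodge index
theorem, and hard Lefschetz and the Hodge-Riemann relations for products of two divisors. -/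
structure KahlerPackage (d : ℕ) (A : Type*) [CommRing A] [Algebra ℝ A] where
  /-- the space of divisor classes -/
  N : Submodule ℝ A
  /-- the degree of zero-cycles -/
  deg : A →ₗ[ℝ] ℝ
  /-- the ample classes -/
  Ample : Set A
  ample_mem : ∀ L ∈ Ample, L ∈ N
  ample_nonempty : Ample.Nonempty
  ample_add : ∀ L ∈ Ample, ∀ M ∈ Ample, L + M ∈ Ample
  ample_smul : ∀ t : ℝ, 0 < t → ∀ L ∈ Ample, t • L ∈ Ample
  pos : ∀ L : Fin d → A, (∀ i, L i ∈ Ample) → 0 < deg (∏ i, L i)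
  index : ∀ L : Fin (d - 2) → A, (∀ i, L i ∈ Ample) → ∀ M ∈ Ample, ∀ u ∈ N,
    deg ((∏ i, L i) * M * u) = 0 → deg ((∏ i, L i) * u ^ 2) ≤ 0
  lefschetz : ∀ L ∈ Ample, ∀ Φ ∈ N * N, ∃ u ∈ N, ∀ D ∈ N,
    deg (L ^ (d - 2) * u * D) = deg (L ^ (d - 3) * Φ * D)
  riemann : ∀ L ∈ Ample, ∀ Φ ∈ N * N, (∀ D ∈ N, deg (L ^ (d - 3) * Φ * D) = 0) →
    0 ≤ deg (L ^ (d - 4) * Φ ^ 2)

/-- Nef classes. -/
def KahlerPackage.Nef {d : ℕ} {A : Type*} [CommRing A] [Algebra ℝ A] (P : KahlerPackage d A)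
    (D : A) : Prop :=
  D ∈ P.N ∧ ∀ L ∈ P.Ample, ∀ t : ℝ, 0 < t → D + t • L ∈ P.Ample

section Five

variable {A : Type*} [CommRing A] [Algebra ℝ A] (P : KahlerPackage 5 A)

lemma pos5 {x1 x2 x3 x4 x5 : A} (h1 : x1 ∈ P.Ample) (h2 : x2 ∈ P.Ample) (h3 : x3 ∈ P.Ample)
    (h4 : x4 ∈ P.Ample) (h5 : x5 ∈ P.Ample) : 0 < P.deg (x1 * x2 * x3 * x4 * x5) := by
  have h := P.pos ![x1, x2, x3, x4, x5] (by
    intro i
    fin_cases i
    · exact h1
    · exact h2
    · exact h3
    · exact h4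
    · exact h5)
  simpa [Fin.prod_univ_succ, mul_assoc] using h

lemma index5 {x1 x2 x3 M u : A} (h1 : x1 ∈ P.Ample) (h2 : x2 ∈ P.Ample) (h3 : x3 ∈ P.Ample)
    (hM : M ∈ P.Ample) (hu : u ∈ P.N) (h : P.deg (x1 * x2 * x3 * M * u) = 0) :
    P.deg (x1 * x2 * x3 * u * u) ≤ 0 := by
  have h := P.index ![x1, x2, x3] (by
    intro i
    fin_cases i
    · exact h1
    · exact h2
    · exact h3) M hM u hu (by
      rw [← h]
      congr 1
      simp [Fin.prod_univ_succ]
      ring)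
  have e : P.deg (x1 * x2 * x3 * u * u) = P.deg ((∏ i, ![x1, x2, x3] i) * u ^ 2) := by
    congr 1
    simp [Fin.prod_univ_succ]
    ring
  rw [e]; exact h

/-- Alexandrov-Fenchel inequality for ample classes. -/
lemma af_ample {x1 x2 x3 M u : A} (h1 : x1 ∈ P.Ample) (h2 : x2 ∈ P.Ample) (h3 : x3 ∈ P.Ample)
    (hM : M ∈ P.Ample) (hu : u ∈ P.N) :
    P.deg (x1 * x2 * x3 * M * M) * P.deg (x1 * x2 * x3 * u * u) ≤
      P.deg (x1 * x2 * x3 * M * u) ^ 2 := by
  set α := P.deg (x1 * x2 * x3 * M * M) with hα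
  set β := P.deg (x1 * x2 * x3 * M * u) with hβ
  have hαpos : 0 < α := pos5 P h1 h2 h3 hM hM
  have hmem : α • u - β • M ∈ P.N :=
    P.N.sub_mem (P.N.smul_mem _ hu) (P.N.smul_mem _ (P.ample_mem _ hM))
  have e1 : x1 * x2 * x3 * M * (α • u - β • M) =
      α • (x1 * x2 * x3 * M * u) - β • (x1 * x2 * x3 * M * M) := by
    simp only [mul_sub, mul_smul_comm]
  have e2 : x1 * x2 * x3 * (α • u - β • M) * (α • u - β • M) =
      (α ^ 2) • (x1 * x2 * x3 * u * u) - (2 * α * β) • (x1 * x2 * x3 * M * u) +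
      (β ^ 2) • (x1 * x2 * x3 * M * M) := by
    simp only [Algebra.smul_def, map_pow, map_mul, map_ofNat]
    ring
  have h0 : P.deg (x1 * x2 * x3 * M * (α • u - β • M)) = 0 := by
    rw [e1, map_sub, map_smul, map_smul, ← hα, ← hβ, smul_eq_mul, smul_eq_mul]
    ring
  have hle := index5 P h1 h2 h3 hM hmem h0
  rw [e2, map_add, map_sub, map_smul, map_smul, map_smul, ← hα, ← hβ, smul_eq_mul, smul_eq_mul,
    smul_eq_mul] at hle
  have : α * (α * P.deg (x1 * x2 * x3 * u * u) - β ^ 2) ≤ 0 := by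
    nlinarith [hle]
  by_contra hc
  push Not at hc
  have := mul_pos hαpos (sub_pos.mpr hc)
  linarith

/-- functions of a real parameter all of whose linear functionals are continuous -/
def PC (f : ℝ → A) : Prop := ∀ φ : A →ₗ[ℝ] ℝ, Continuous fun s => φ (f s)

lemma PC_const (x : A) : PC (fun _ : ℝ => x) := fun _ => continuous_const

lemma PC_add {f g : ℝ → A} (hf : PC f) (hg : PC g) : PC (fun s => f s + g s) := by
  intro φ
  simp only [map_add]
  exact (hf φ).add (hg φ)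

lemma PC_mul_const {f : ℝ → A} (hf : PC f) (y : A) : PC (fun s => f s * y) := by
  intro φ
  exact hf (φ ∘ₗ (LinearMap.mulRight ℝ y))

lemma PC_smul {f : ℝ → A} (hf : PC f) : PC (fun s => s • f s) := by
  intro φ
  simp only [map_smul, smul_eq_mul]
  exact continuous_id.mul (hf φ)

lemma PC_mul_aff {f : ℝ → A} (hf : PC f) (x y : A) : PC (fun s => f s * (x + s • y)) := by
  have : (fun s => f s * (x + s • y)) = fun s => f s * x + s • (f s * y) := by
    funext s
    rw [mul_add, mul_smul_comm]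
  rw [this]
  exact PC_add (PC_mul_const hf x) (PC_smul (PC_mul_const hf y))

lemma PC_aff (x y : A) : PC (fun s : ℝ => x + s • y) :=
  PC_add (PC_const x) (PC_smul (PC_const y))

lemma nef_of_ample {L : A} (hL : L ∈ P.Ample) : P.Nef L :=
  ⟨P.ample_mem _ hL, fun _ hM t ht => P.ample_add _ hL _ (P.ample_smul t ht _ hM)⟩

lemma nef_add_ample {D L : A} (hD : P.Nef D) (hL : L ∈ P.Ample) : D + L ∈ P.Ample := by
  simpa using hD.2 L hL 1 one_pos

lemma nef_add {D E : A} (hD : P.Nef D) (hE : P.Nef E) : P.Nef (D + E) := by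
  refine ⟨P.N.add_mem hD.1 hE.1, fun L hL t ht => ?_⟩
  have h1 := hD.2 L hL (t / 2) (by positivity)
  have h2 := hE.2 L hL (t / 2) (by positivity)
  have h3 := P.ample_add _ h1 _ h2
  have e : D + (t / 2) • L + (E + (t / 2) • L) = D + E + t • L := by
    have : t • L = (t / 2) • L + (t / 2) • L := by rw [← add_smul, add_halves]
    rw [this]; abel
  rwa [e] at h3

lemma nef_zero : P.Nef 0 :=
  ⟨P.N.zero_mem, fun L hL t ht => by simpa using P.ample_smul t ht L hL⟩

lemma nef_smul {D : A} (hD : P.Nef D) {c : ℝ} (hc : 0 ≤ c) : P.Nef (c • D) := by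
  rcases hc.eq_or_lt with rfl | hc
  · simpa using nef_zero P
  · refine ⟨P.N.smul_mem _ hD.1, fun L hL t ht => ?_⟩
    have h1 := P.ample_smul c hc _ (hD.2 L hL (t / c) (by positivity))
    have e : c • (D + (t / c) • L) = c • D + t • L := by
      rw [smul_add, smul_smul, mul_div_cancel₀ _ hc.ne']
    rwa [e] at h1

/-- products of nef classes have nonnegative degree -/
lemma nonneg5 {x1 x2 x3 x4 x5 : A} (h1 : P.Nef x1) (h2 : P.Nef x2) (h3 : P.Nef x3)
    (h4 : P.Nef x4) (h5 : P.Nef x5) : 0 ≤ P.deg (x1 * x2 * x3 * x4 * x5) := by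
  obtain ⟨B, hB⟩ := P.ample_nonempty
  have hc : Continuous fun s : ℝ => P.deg ((x1 + s • B) * (x2 + s • B) * (x3 + s • B) *
      (x4 + s • B) * (x5 + s • B)) :=
    (PC_mul_aff (PC_mul_aff (PC_mul_aff (PC_mul_aff (PC_aff x1 B) x2 B) x3 B) x4 B) x5 B) P.deg
  have ht : Filter.Tendsto (fun s : ℝ => P.deg ((x1 + s • B) * (x2 + s • B) * (x3 + s • B) *
      (x4 + s • B) * (x5 + s • B))) (nhdsWithin 0 (Set.Ioi 0))
      (nhds (P.deg (x1 * x2 * x3 * x4 * x5))) := by
    have := (hc.tendsto 0).mono_left (nhdsWithin_le_nhds (s := Set.Ioi (0 : ℝ)))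
    simpa using this
  refine ge_of_tendsto ht ?_
  filter_upwards [self_mem_nhdsWithin] with s hs
  exact (pos5 P (h1.2 B hB s hs) (h2.2 B hB s hs) (h3.2 B hB s hs) (h4.2 B hB s hs)
    (h5.2 B hB s hs)).le

/-- Alexandrov-Fenchel inequality for nef classes. -/
lemma af_nef {x1 x2 x3 V u : A} (h1 : P.Nef x1) (h2 : P.Nef x2) (h3 : P.Nef x3)
    (hV : P.Nef V) (hu : u ∈ P.N) :
    P.deg (x1 * x2 * x3 * V * V) * P.deg (x1 * x2 * x3 * u * u) ≤
      P.deg (x1 * x2 * x3 * V * u) ^ 2 := by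
  obtain ⟨B, hB⟩ := P.ample_nonempty
  have base : PC (fun s : ℝ => (x1 + s • B) * (x2 + s • B) * (x3 + s • B)) :=
    PC_mul_aff (PC_mul_aff (PC_aff x1 B) x2 B) x3 B
  have c1 : Continuous fun s : ℝ => P.deg ((x1 + s • B) * (x2 + s • B) * (x3 + s • B) *
      (V + s • B) * (V + s • B)) := (PC_mul_aff (PC_mul_aff base V B) V B) P.deg
  have c2 : Continuous fun s : ℝ => P.deg ((x1 + s • B) * (x2 + s • B) * (x3 + s • B) *
      u * u) := (PC_mul_const (PC_mul_const base u) u) P.deg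
  have c3 : Continuous fun s : ℝ => P.deg ((x1 + s • B) * (x2 + s • B) * (x3 + s • B) *
      (V + s • B) * u) := (PC_mul_const (PC_mul_aff base V B) u) P.deg
  have t1 : Filter.Tendsto (fun s : ℝ => P.deg ((x1 + s • B) * (x2 + s • B) * (x3 + s • B) *
      (V + s • B) * (V + s • B)) * P.deg ((x1 + s • B) * (x2 + s • B) * (x3 + s • B) * u * u))
      (nhdsWithin 0 (Set.Ioi 0))
      (nhds (P.deg (x1 * x2 * x3 * V * V) * P.deg (x1 * x2 * x3 * u * u))) := by
    have h := ((c1.fun_mul c2).tendsto 0).mono_left (nhdsWithin_le_nhds (s := Set.Ioi (0 : ℝ)))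
    simpa using h
  have t2 : Filter.Tendsto (fun s : ℝ => P.deg ((x1 + s • B) * (x2 + s • B) * (x3 + s • B) *
      (V + s • B) * u) ^ 2) (nhdsWithin 0 (Set.Ioi 0))
      (nhds (P.deg (x1 * x2 * x3 * V * u) ^ 2)) := by
    have h := ((c3.fun_pow 2).tendsto 0).mono_left (nhdsWithin_le_nhds (s := Set.Ioi (0 : ℝ)))
    simpa using h
  refine le_of_tendsto_of_tendsto t1 t2 ?_
  filter_upwards [self_mem_nhdsWithin] with s hs
  exact af_ample P (h1.2 B hB s hs) (h2.2 B hB s hs) (h3.2 B hB s hs) (hV.2 B hB s hs) hu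

/-- equality case of the Alexandrov-Fenchel inequality -/
lemma af_zero {x1 x2 x3 V k : A} (h1 : P.Nef x1) (h2 : P.Nef x2) (h3 : P.Nef x3)
    (hV : P.Nef V) (hk : k ∈ P.N) (hVV : 0 < P.deg (x1 * x2 * x3 * V * V))
    (hVk : P.deg (x1 * x2 * x3 * V * k) = 0) (hkk : P.deg (x1 * x2 * x3 * k * k) = 0)
    {D : A} (hD : D ∈ P.N) : P.deg (x1 * x2 * x3 * k * D) = 0 := by
  have key : ∀ s : ℝ, P.deg (x1 * x2 * x3 * V * V) *
      (2 * s * P.deg (x1 * x2 * x3 * k * D) + s ^ 2 * P.deg (x1 * x2 * x3 * D * D)) ≤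
      s ^ 2 * P.deg (x1 * x2 * x3 * V * D) ^ 2 := by
    intro s
    have h := af_nef P h1 h2 h3 hV (P.N.add_mem hk (P.N.smul_mem s hD))
    have e1 : x1 * x2 * x3 * (k + s • D) * (k + s • D) =
        x1 * x2 * x3 * k * k + (2 * s) • (x1 * x2 * x3 * k * D) +
          (s ^ 2) • (x1 * x2 * x3 * D * D) := by
      simp only [Algebra.smul_def, map_pow, map_mul, map_ofNat]
      ring
    have e2 : x1 * x2 * x3 * V * (k + s • D) =
        x1 * x2 * x3 * V * k + s • (x1 * x2 * x3 * V * D) := by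
      rw [mul_add, mul_smul_comm]
    rw [e1, e2] at h
    simp only [map_add, map_smul, smul_eq_mul, hVk, hkk, zero_add] at h
    nlinarith [h]
  set a := P.deg (x1 * x2 * x3 * V * V)
  set b := P.deg (x1 * x2 * x3 * k * D)
  set c := P.deg (x1 * x2 * x3 * D * D)
  set e := P.deg (x1 * x2 * x3 * V * D)
  by_contra hb
  -- quadratic in `s` with nonzero linear term cannot be nonpositive near zero
  set q := e ^ 2 - a * c with hq
  have key' : ∀ s : ℝ, 2 * a * b * s ≤ q * s ^ 2 := by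
    intro s
    have := key s
    nlinarith [this]
  have hab : a * b ≠ 0 := mul_ne_zero hVV.ne' hb
  have h1 := key' (a * b / (|q| + 1))
  have hq1 : 0 < |q| + 1 := by positivity
  have h2 : q * (a * b / (|q| + 1)) ^ 2 ≤ (a * b) ^ 2 / (|q| + 1) := by
    have : q * (a * b / (|q| + 1)) ^ 2 = (q / (|q| + 1)) * ((a * b) ^ 2 / (|q| + 1)) := by
      field_simp
    rw [this]
    have hle : q / (|q| + 1) ≤ 1 := by
      rw [div_le_one hq1]
      linarith [le_abs_self q]
    have hnn : 0 ≤ (a * b) ^ 2 / (|q| + 1) := by positivity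
    nlinarith
  have h3 : 2 * a * b * (a * b / (|q| + 1)) = 2 * ((a * b) ^ 2 / (|q| + 1)) := by
    field_simp
  rw [h3] at h1
  have h4 : 0 < (a * b) ^ 2 / (|q| + 1) := by positivity
  linarith

end Five

end EurHuhHR
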